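import Pool.Agent.SemiRandom.Main

/-!
# Oriented Hamilton cycles with linearly many sinks in the semi-random digraph process

Affirmative answer to Q1: if the orientation of the `n`-cycle has at least `ε n` vertices of
out-degree `0`, then Builder can build it in `C n` rounds of the online game with high
probability, where `C` depends on `ε` only.
-/

namespace Pool.Agent.Results.MP_0e68b7_co.LinearTime

/-- A strategy of Builder in the online game on the vertex set `Fin n`: in round `t`
(`t = 0, 1, 2, …`), knowing the vertices offered in the rounds `0, …, t` (and hence also all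
its own earlier choices), Builder chooses a vertex. -/
abbrev Strategy (n : ℕ) : Type := (t : ℕ) → (Fin (t + 1) → Fin n) → Fin n

/-- The arcs present after `T` rounds if the offered vertices are `ω 0, …, ω (T - 1)` and Builder
follows the strategy `σ`: in round `t` the arc from `ω t` to the vertex chosen by `σ` is added. -/
def builtArcs {n T : ℕ} (σ : Strategy n) (ω : Fin T → Fin n) : Set (Fin n × Fin n) :=
  {p | ∃ t : Fin T, p = (ω t, σ t fun s : Fin ((t : ℕ) + 1) => ω ⟨s, by omega⟩)}

/-- `OArc o i j`: the orientation `o` of the `n`-cycle on `Fin n` has the arc `i → j`. The edge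
`{i, i + 1}` (indices modulo `n`) is directed `i → i + 1` if `o i = true` and `i + 1 → i`
if `o i = false`. -/
def OArc {n : ℕ} [NeZero n] (o : Fin n → Bool) (i j : Fin n) : Prop :=
  (j = i + 1 ∧ o i = true) ∨ (i = j + 1 ∧ o j = false)

/-- The out-degree of `i` in the orientation `o`. -/
noncomputable def outDegree {n : ℕ} [NeZero n] (o : Fin n → Bool) (i : Fin n) : ℕ :=
  {j | OArc o i j}.ncard

/-- The number of vertices of out-degree `0`. -/
noncomputable def numSinks {n : ℕ} [NeZero n] (o : Fin n → Bool) : ℕ :=
  {i | outDegree o i = 0}.ncard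

/-- The digraph with arc set `G` contains a copy of the orientation `o` of the `n`-cycle. -/
def ContainsCopy {n : ℕ} [NeZero n] (o : Fin n → Bool) (G : Set (Fin n × Fin n)) : Prop :=
  ∃ π : Equiv.Perm (Fin n), ∀ i j, OArc o i j → (π i, π j) ∈ G

/-- The probability, over `T` independent uniformly random offers, that Builder following `σ` has
not built a copy of `o` after `T` rounds. -/
noncomputable def failProb {n : ℕ} [NeZero n] (T : ℕ) (o : Fin n → Bool) (σ : Strategy n) : ℝ :=
  ({ω : Fin T → Fin n | ¬ ContainsCopy o (builtArcs σ ω)}.ncard : ℝ) / (n : ℝ) ^ T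

theorem numSinks_le {n : ℕ} [NeZero n] (o : Fin n → Bool) :
    numSinks o ≤ (SemiRandom.sinks o).card := by
  unfold numSinks
  rw [← Set.ncard_coe_finset]
  refine Set.ncard_le_ncard ?_ (Set.toFinite _)
  intro i hi
  have h0 : {j | OArc o i j} = ∅ := (Set.ncard_eq_zero (Set.toFinite _)).1 hi
  rw [Finset.mem_coe, SemiRandom.mem_sinks]
  constructor
  · by_contra h
    have : i + 1 ∈ {j | OArc o i j} := Or.inl ⟨rfl, by simpa using h⟩
    rw [h0] at this
    exact this
  · by_contra h
    have : i - 1 ∈ {j | OArc o i j} := Or.inr ⟨(sub_add_cancel i 1).symm, by simpa using h⟩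
    rw [h0] at this
    exact this

/-- **Affirmative answer to Q1.** For every `ε > 0` there are a constant `C` and online strategies
`σ n o` of Builder (one for every `n` and every orientation `o` of the `n`-cycle) such that the
probability of not having built a copy of `o` after `C n` rounds, maximised over all orientations
`o` with at least `ε n` vertices of out-degree `0`, tends to `0` as `n → ∞`. -/
theorem result : ∀ ε : ℝ, 0 < ε →
    ∃ (C : ℕ) (σ : (n : ℕ) → [NeZero n] → (Fin n → Bool) → Strategy n),
      ∀ η : ℝ, 0 < η → ∃ n₀ : ℕ, ∀ (n : ℕ) [NeZero n], n₀ ≤ n →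
        ∀ o : Fin n → Bool, ε * (n : ℝ) ≤ (numSinks o : ℝ) → failProb (C * n) o (σ n o) ≤ η := by
  intro ε hε
  obtain ⟨C, hC⟩ := SemiRandom.main_loss hε
  refine ⟨C, fun n _ o =>
    (SemiRandom.exists_strat (SemiRandom.HasCopy o) (C * n) ∅).choose, fun η hη => ?_⟩
  obtain ⟨n₀, hn₀⟩ := hC η hη
  refine ⟨n₀, fun n _ hn o ho => ?_⟩
  have hs : ε * (n : ℝ) ≤ (SemiRandom.sinks o).card :=
    ho.trans (by exact_mod_cast numSinks_le o)
  have hloss := hn₀ n hn o hs
  have hσ := (SemiRandom.exists_strat (SemiRandom.HasCopy o) (C * n) ∅).choose_spec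
  set σ := (SemiRandom.exists_strat (SemiRandom.HasCopy o) (C * n) ∅).choose with hσdef
  have hn0 : (0 : ℝ) < n := by exact_mod_cast Nat.pos_of_ne_zero (NeZero.ne n)
  have h1 : ({ω : Fin (C * n) → Fin n | ¬ ContainsCopy o (builtArcs σ ω)}.ncard : ℝ) =
      SemiRandom.loss (SemiRandom.HasCopy o) (C * n) ∅ * (n : ℝ) ^ (C * n) := by
    rw [Fintype.card_fin] at hσ
    rw [← hσ]
    congr 2
    ext ω
    rw [Set.mem_ofPred_eq, Set.mem_ofPred_eq, Set.empty_union]
    exact Iff.rfl
  unfold failProb
  rw [h1, mul_div_assoc, div_self (by positivity), mul_one]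
  exact hloss

end Pool.Agent.Results.MP_0e68b7_co.LinearTime
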